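import Pool.Agent.Helper74.UB.Goals3

/-!
Project UB (MP_cd9ac2_co), packet CONESIM: a cone is simple.
-/

set_option autoImplicit false

namespace Pool.Agent.Helper12.UB

open Finset Equiv Helper28.VF
open scoped Classical

open Pool.Agent.Helper74.UB

theorem conesim : Pool.Agent.Helper74.UB.StmtConeSim := by
  intro D V E F E' F' _ _ _ _ _ _ M I M' hC hnl hs hI
  have tl : ∀ d, tg M' (Sum.inl d) = Sum.inl (tg M d) := by
    intro d
    unfold tg
    rw [hC.al, hC.vl]
  have tf : ∀ d, tg M' (Sum.inr (d, false)) = Sum.inr ⟨M.fc d.1, d.2⟩ := by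
    intro d
    unfold tg
    rw [hC.ar]
    exact hC.vtr d
  have tt : ∀ d, tg M' (Sum.inr (d, true)) = Sum.inl (M.vt d.1) := by
    intro d
    unfold tg
    rw [hC.ar]
    exact hC.vf d
  have key : ∀ d d' : {d : D // I (M.fc d)}, M.fc d.1 = M.fc d'.1 → M.vt d.1 = M.vt d'.1 →
      d = d' := fun d d' h1 h2 => Subtype.ext (hI d.1 d'.1 d.2 h1 h2)
  constructor
  · rintro (d | ⟨d, b⟩)
    · rw [tl, hC.vl]
      intro h
      exact hnl d (Sum.inl.inj h)
    · cases b
      · rw [tf, hC.vf]
        exact Sum.inr_ne_inl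
      · rw [tt, hC.vtr]
        exact Sum.inl_ne_inr
  · rintro (d | ⟨d, b⟩) (e | ⟨e, c⟩)
    · rw [tl, tl, hC.vl, hC.vl]
      intro h1 h2
      rw [hs d e (Sum.inl.inj h1) (Sum.inl.inj h2)]
    · cases c
      · rw [tl, tf]
        intro _ h2
        exact absurd h2 Sum.inl_ne_inr
      · rw [hC.vl, hC.vtr]
        intro h1
        exact absurd h1 Sum.inl_ne_inr
    · cases b
      · rw [tl, tf]
        intro _ h2
        exact absurd h2 Sum.inr_ne_inl
      · rw [hC.vl, hC.vtr]
        intro h1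
        exact absurd h1 Sum.inr_ne_inl
    · cases b <;> cases c
      · rw [hC.vf, hC.vf, tf, tf]
        intro h1 h2
        have h3 := congrArg Subtype.val (Sum.inr.inj h2)
        rw [key d e h3 (Sum.inl.inj h1)]
      · rw [hC.vf, hC.vtr]
        intro h1
        exact absurd h1 Sum.inl_ne_inr
      · rw [hC.vf, hC.vtr]
        intro h1
        exact absurd h1 Sum.inr_ne_inl
      · rw [hC.vtr, hC.vtr, tt, tt]
        intro h1 h2
        have h3 := congrArg Subtype.val (Sum.inr.inj h1)
        rw [key d e h3 (Sum.inl.inj h2)]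

end Pool.Agent.Helper12.UB
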