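import Pool.Agent.Helper74.UB.Goals5

/-!
Project UB (MP_cd9ac2_co), packet REDA: reduction, case (A).
-/

set_option autoImplicit false

namespace Pool.Agent.Helper12.UB

open Finset Equiv Helper28.VF
open Pool.Agent.Helper34.FF (burn prot Legal saved sn rho)
open scoped Classical

open Pool.Agent.Helper74.UB

theorem mem_fA_zero {D V E F : Type} [Fintype D] [Fintype V] [Fintype E] [Fintype F]
    (M : PM D V E F) (R : ℕ → Finset V) (v₀ x : V) : x ∈ fA M R v₀ 0 ↔ x = v₀ := by
  simp [fA]

theorem mem_fA_succ {D V E F : Type} [Fintype D] [Fintype V] [Fintype E] [Fintype F]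
    (M : PM D V E F) (R : ℕ → Finset V) (v₀ x : V) (s : ℕ) :
    x ∈ fA M R v₀ (s + 1) ↔
      x ∈ fA M R v₀ s ∨ (x ∉ R s ∧ ∃ u ∈ fA M R v₀ s, Ad M u x) := by
  simp [fA]

theorem reda (hPB : StmtPB) (hMkF : StmtMkF) (hCA : StmtConeAd) (hLA : StmtLayAd) : StmtRedA := by
  intro K h V D E F E' F' _ _ _ _ _ _ L f M dE dW dU dN I M' hH hLM hC hI v₀ σ hL v r hv0 hvh hr hb
  obtain ⟨p1, p2, p3, p4⟩ := hPB (GV M) (GS M) v₀ σ hL
  obtain ⟨ad, -, -, -, -⟩ := hCA D V E F E' F' M I M' hC
  obtain ⟨lad, noloop, -⟩ := hLA V D E F L M dE dW dU dN hH.ax hLM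
  have adL : ∀ u w, Ad M' (Sum.inl u) (Sum.inl w) ↔ L.adj u w := fun u w => (ad u w).trans (lad u w)
  set R : ℕ → Finset (VC V I) := fun s =>
    (univ.filter fun u : V => (Sum.inl (Sum.inl u) : GV M) ∈ prot σ (s + 1 + r)).image Sum.inl
    with hR
  have memR : ∀ s x, x ∈ R s ↔ ∃ u, x = Sum.inl u ∧
      (Sum.inl (Sum.inl u) : GV M) ∈ prot σ (s + 1 + r) := by
    intro s x
    simp only [hR, mem_image, mem_filter, mem_univ, true_and]
    constructor
    · rintro ⟨u, h1, h2⟩
      exact ⟨u, h2.symm, h1⟩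
    · rintro ⟨u, h1, h2⟩
      exact ⟨u, h2, h1.symm⟩
  have Rmono : ∀ s, R s ⊆ R (s + 1) := by
    intro s x hx
    obtain ⟨u, h1, h2⟩ := (memR s x).1 hx
    exact (memR _ x).2 ⟨u, h1, (p2 (s + 1 + r) (s + 1 + 1 + r) (by omega)).1 h2⟩
  have Rcard : ∀ s, (R s).card ≤ r + s + 1 := by
    intro s
    have h1 : (R s).card ≤ (prot σ (s + 1 + r)).card := by
      rw [hR]
      refine card_image_le.trans ?_
      refine card_le_card_of_injOn (fun u => (Sum.inl (Sum.inl u) : GV M)) ?_ ?_
      · intro u hu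
        exact (mem_filter.1 (mem_coe.1 hu)).2
      · intro u _ w _ huw
        exact Sum.inl.inj (Sum.inl.inj huw)
    have h2 := p3 (s + 1 + r)
    omega
  have claim : ∀ s u, Sum.inl u ∈ fA M' R (Sum.inl v) s →
      (Sum.inl (Sum.inl u) : GV M) ∈ burn (GS M) v₀ σ (s + r) := by
    intro s
    induction s with
    | zero =>
      intro u hu
      have h1 : (Sum.inl u : VC V I) = Sum.inl v := (mem_fA_zero _ _ _ _).1 hu
      rw [Sum.inl.inj h1, zero_add]
      exact hb
    | succ s ih =>
      intro u hu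
      rcases (mem_fA_succ _ _ _ _ _).1 hu with hu | hu
      · exact (p2 (s + r) (s + 1 + r) (by omega)).2 (ih u hu)
      · obtain ⟨h2, y, h3, h4⟩ := hu
        rcases y with u' | q
        · have h5 := ih u' h3
          have h6 : Ad M u' u := (ad u' u).1 h4
          have h7 : (GS M).Adj (Sum.inl (Sum.inl u')) (Sum.inl (Sum.inl u)) := by
            unfold GS
            rw [SimpleGraph.fromRel_adj]
            refine ⟨?_, Or.inl h6⟩
            intro h8
            have h9 : u' = u := Sum.inl.inj (Sum.inl.inj h8)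
            obtain ⟨d, hd1, hd2⟩ := h6
            exact noloop d (by rw [hd1, hd2, h9])
          have h8 : (Sum.inl (Sum.inl u) : GV M) ∉ prot σ (s + r + 1) := by
            intro h9
            apply h2
            refine (memR s _).2 ⟨u, rfl, ?_⟩
            rw [show s + 1 + r = s + r + 1 by omega]
            exact h9
          have h9 := p4 (s + r) _ _ h5 h7 h8
          rw [show s + 1 + r = s + r + 1 by omega]
          exact h9
        · exact absurd q.2 (hI q.1)
  have hdis : ∀ s t, Disjoint (R s) (fA M' R (Sum.inl v) t) := by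
    intro s t
    rw [Finset.disjoint_left]
    intro x hx hx'
    obtain ⟨u, rfl, h2⟩ := (memR s x).1 hx
    exact Finset.disjoint_left.1 (p1 (s + 1 + r) (t + r)) h2 (claim t u hx')
  have hnb : ∃ w, Ad M' (Sum.inl v) w ∧ w ∉ R 0 ∧ w ≠ Sum.inl v := by
    have hK := hH.K1
    have hr1 : L.row v < L.r1 := by
      rw [hH.r1]
      omega
    obtain ⟨k, ⟨hk, -⟩, -⟩ := hH.ax.ul v hr1
    have rk := hH.ax.up_row v k hk
    have re := hH.ax.row_e v
    have re' := hH.ax.row_e (L.e.symm v)
    rw [Equiv.apply_symm_apply] at re'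
    have a1 : Ad M' (Sum.inl v) (Sum.inl (L.e v)) := (adL _ _).2 (Or.inl rfl)
    have a2 : Ad M' (Sum.inl v) (Sum.inl (L.e.symm v)) :=
      (adL _ _).2 (Or.inr (Or.inl (Equiv.apply_symm_apply _ _).symm))
    have a3 : Ad M' (Sum.inl v) (Sum.inl k) := (adL _ _).2 (Or.inr (Or.inr (Or.inl hk)))
    have n1 : L.e v ≠ v := hH.ax.e1 v
    have n2 : L.e.symm v ≠ v := by
      intro h1
      apply n1
      conv_lhs => rw [← h1]
      exact Equiv.apply_symm_apply _ _
    have n3 : k ≠ v := by
      intro h1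
      rw [h1] at rk
      omega
    have m12 : L.e v ≠ L.e.symm v := by
      intro h1
      have h2 := hH.ax.e2 v
      rw [h1, Equiv.apply_symm_apply] at h2
      exact h2 rfl
    have m13 : L.e v ≠ k := by
      intro h1
      rw [← h1] at rk
      omega
    have m23 : L.e.symm v ≠ k := by
      intro h1
      rw [← h1] at rk
      omega
    by_contra hcon
    push Not at hcon
    have inj : Function.Injective (Sum.inl : V → VC V I) := Sum.inl_injective
    have b1 : Sum.inl (L.e v) ∈ R 0 := by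
      by_contra h1
      exact n1 (inj (hcon _ a1 h1))
    have b2 : Sum.inl (L.e.symm v) ∈ R 0 := by
      by_contra h1
      exact n2 (inj (hcon _ a2 h1))
    have b3 : Sum.inl k ∈ R 0 := by
      by_contra h1
      exact n3 (inj (hcon _ a3 h1))
    have hsub : ({Sum.inl (L.e v), Sum.inl (L.e.symm v), Sum.inl k} : Finset (VC V I)) ⊆ R 0 := by
      intro x hx
      simp only [mem_insert, mem_singleton] at hx
      rcases hx with rfl | rfl | rfl
      · exact b1
      · exact b2
      · exact b3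
    have hc3 : ({Sum.inl (L.e v), Sum.inl (L.e.symm v), Sum.inl k} : Finset (VC V I)).card = 3 := by
      rw [card_insert_of_notMem, card_insert_of_notMem, card_singleton]
      · rw [mem_singleton]
        exact fun h1 => m23 (inj h1)
      · simp only [mem_insert, mem_singleton, not_or]
        exact ⟨fun h1 => m12 (inj h1), fun h1 => m13 (inj h1)⟩
    have h1 := card_le_card hsub
    have h2 := Rcard 0
    omega
  refine ⟨fA M' R (Sum.inl v), fQ M' R (Sum.inl v), R, ⟨hH, hLM, hC,
    hMkF _ _ _ _ M' r (Sum.inl v) R Rmono Rcard hdis hnb, ⟨hv0, hvh⟩,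
    Or.inl ⟨rfl, hI, ⟨v, rfl, rfl⟩, hr⟩⟩, fun s => filter_subset _ _, Rmono, Rcard, ?_⟩
  intro s u hu
  exact (p2 (s + r) (s + 2) (by omega)).2 (claim s u hu)

end Pool.Agent.Helper12.UB
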